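import Pool.Agent.Helper40.OL.Spec

set_option autoImplicit false

namespace Pool.Agent.Helper72.OL

open Pool.Agent.Helper40.OL

/-- merging gaps: the forest with prescribed roots -/
theorem merge_aux : ∀ (e k N : ℕ) (j : ℕ → ℕ), N = k + 1 + e → StrictMonoOn j (Set.Iic (k + 1)) →
    j 0 = 0 → j (k + 1) = N → ∃ w, Fo (k + 1) N w ∧ ∀ i ≤ k + 1, w.f (j i) = i := by
  intro e
  induction e with
  | zero =>
    intro k N j hN hj h0 h1
    have hlow : ∀ i, i ≤ k + 1 → i ≤ j i := by
      intro i
      induction i with
      | zero => intro _; exact Nat.zero_le _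
      | succ i ih =>
        intro hi
        have h2 := ih (by omega)
        have h3 : j i < j (i + 1) := hj (by simp; omega) (by simpa using hi) (Nat.lt_succ_self i)
        omega
    have hup : ∀ i, i ≤ k + 1 → j (k + 1 - i) + i ≤ k + 1 := by
      intro i
      induction i with
      | zero => intro _; simp only [Nat.sub_zero]; omega
      | succ i ih =>
        intro hi
        have h2 := ih (by omega)
        have h3 : j (k + 1 - (i + 1)) < j (k + 1 - i) :=
          hj (Set.mem_Iic.2 (by omega)) (Set.mem_Iic.2 (by omega)) (by omega)
        omega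
    have heq : ∀ i, i ≤ k + 1 → j i = i := by
      intro i hi
      have h2 := hlow i hi
      have h3 := hup (k + 1 - i) (by omega)
      have h4 : k + 1 - (k + 1 - i) = i := by omega
      rw [h4] at h3
      omega
    subst hN
    refine ⟨1, Fo.base (K (k + 1)).one_mem, fun i hi => ?_⟩
    rw [heq i hi]
    simp
  | succ e ih =>
    intro k N j hN hj h0 h1
    obtain ⟨i, hik, hgap⟩ : ∃ i, i ≤ k ∧ j i + 2 ≤ j (i + 1) := by
      by_contra hcon
      push Not at hcon
      have hb : ∀ i, i ≤ k + 1 → j i ≤ i := by
        intro i
        induction i with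
        | zero => intro _; omega
        | succ i ihi =>
          intro hi
          have h2 := ihi (by omega)
          have h3 := hcon i (by omega)
          omega
      have := hb (k + 1) le_rfl
      omega
    set j' : ℕ → ℕ := fun m => if m ≤ i then j m else if m = i + 1 then j i + 1 else j (m - 1) with hj'
    have hj'1 : ∀ m, m ≤ i → j' m = j m := fun m hm => by simp [hj', hm]
    have hj'2 : j' (i + 1) = j i + 1 := by simp [hj']
    have hj'3 : ∀ m, i + 1 ≤ m → j' (m + 1) = j m := fun m hm => by
      have e1 : ¬ (m + 1 ≤ i) := by omega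
      have e2 : ¬ (m + 1 = i + 1) := by omega
      simp only [hj', if_neg e1, if_neg e2, Nat.add_sub_cancel]
    have hstep : ∀ m, m + 1 ≤ k + 2 → j' m < j' (m + 1) := by
      intro m hm
      rcases Nat.lt_trichotomy m i with h | h | h
      · rw [hj'1 m h.le, hj'1 (m + 1) h]
        exact hj (by simp; omega) (by simp; omega) (Nat.lt_succ_self m)
      · subst h
        rw [hj'1 m le_rfl, hj'2]
        omega
      · rcases Nat.lt_or_ge (i + 1) m with h' | h'
        · obtain ⟨m', rfl⟩ : ∃ m', m = m' + 1 := ⟨m - 1, by omega⟩
          rw [hj'3 m' (by omega), hj'3 (m' + 1) (by omega)]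
          exact hj (by simp; omega) (by simp; omega) (Nat.lt_succ_self m')
        · have : m = i + 1 := by omega
          subst this
          rw [hj'2, hj'3 (i + 1) le_rfl]
          omega
    have hmono : StrictMonoOn j' (Set.Iic (k + 1 + 1)) := by
      have key : ∀ d m, m + d + 1 ≤ k + 2 → j' m < j' (m + d + 1) := by
        intro d
        induction d with
        | zero => intro m hm; exact hstep m hm
        | succ d ihd =>
          intro m hm
          exact (ihd m (by omega)).trans (hstep (m + d + 1) (by omega))
      intro a ha b hb hab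
      have := key (b - a - 1) a (by simp at hb; omega)
      have e1 : a + (b - a - 1) + 1 = b := by omega
      rwa [e1] at this
    obtain ⟨w', hw', hw''⟩ := ih (k + 1) N j' (by omega) hmono (by
        rw [hj'1 0 (Nat.zero_le _), h0]) (by
        rw [hj'3 (k + 1) (by omega), h1])
    refine ⟨tau i * w', Fo.step (by omega) hw', fun m hm => ?_⟩
    show tauP i (w'.f (j m : ℝ)) = m
    rw [tauP_apply]
    rcases Nat.lt_or_ge i m with h | h
    · have h2 := hw'' (m + 1) (by omega)
      rw [hj'3 m h] at h2
      rw [h2]
      have h3 : (i : ℝ) + 1 ≤ m := by exact_mod_cast h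
      unfold tg
      push_cast
      split_ifs with c1 c2
      · linarith
      · linarith
      · ring
    · have h2 := hw'' m (by omega)
      rw [hj'1 m h] at h2
      rw [h2]
      have h3 : (m : ℝ) ≤ i := by exact_mod_cast h
      unfold tg
      rw [if_pos h3]

theorem merge_thm : S_MERGE := by
  intro k N j hj h0 h1
  have hlow : ∀ i, i ≤ k + 1 → i ≤ j i := by
    intro i
    induction i with
    | zero => intro _; exact Nat.zero_le _
    | succ i ih =>
      intro hi
      have h2 := ih (by omega)
      have h3 : j i < j (i + 1) := hj (by simp; omega) (by simpa using hi) (Nat.lt_succ_self i)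
      omega
  have := hlow (k + 1) le_rfl
  exact merge_aux (N - (k + 1)) k N j (by omega) hj h0 h1

end Pool.Agent.Helper72.OL
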