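import Pool.Agent.Helper40.OL.Spec

set_option autoImplicit false

namespace Pool.Agent.Helper72.OL

open Pool.Agent.Helper40.OL

/-- stabilisers of finite sets are conjugate to the groups `Gam (k + 1)` -/
theorem stab_thm (hGAM : S_GAM) (hORE : S_ORE) (hY : S_Y) : S_STAB := by
  obtain ⟨hmul, hcm⟩ := hORE
  intro k y hy g
  obtain ⟨-, -, -, -, -, -, -, -, hfact, -⟩ := hY 1 le_rfl
  obtain ⟨-, hy0, hy1, -⟩ := hfact (k + 1) y hy
  obtain ⟨⟨N, p, q, hp, hq, hpq⟩, -⟩ := hy
  have g1 : ∀ r (x : E), x ∈ Gam r ↔ x ∈ GamSet r := fun r x => by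
    rw [← hGAM r]; rfl
  rw [g1, g1]
  have hconj : ∀ x : ℝ, (y⁻¹ * g * y).f x = y.f⁻¹ (g.f (y.f x)) := fun x => rfl
  constructor
  · rintro ⟨⟨⟨M, a, b, ha, hb, hab⟩, hfix⟩, hst⟩
    refine ⟨?_, fun i hi => ?_⟩
    · obtain ⟨L', q', a', hq', ha', e1⟩ := hcm 1 N M q a hq ha
      obtain ⟨L, c, c', hc, hc', e2⟩ := hcm 1 L' N (b * a') q (hmul _ _ _ _ _ hb ha') hq
      refine ⟨L, p * q' * c, p * c', hmul _ _ _ _ _ (hmul _ _ _ _ _ hp hq') hc,
        hmul _ _ _ _ _ hp hc', ?_⟩
      have e3 : g * (y * p * q') * c = y * p * c' := by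
        rw [hpq, e1, ← mul_assoc g, hab, e2]
      calc y⁻¹ * g * y * (p * q' * c) = y⁻¹ * (g * (y * p * q') * c) := by group
        _ = y⁻¹ * (y * p * c') := by rw [e3]
        _ = p * c' := by group
    · rw [hconj]
      have h1 : g.f (y.f i) = y.f i := by
        rcases Nat.eq_zero_or_pos i with rfl | h0
        · have := hfix 0 (Nat.zero_le _)
          push_cast at this ⊢
          rw [hy0, this]
        · rcases Nat.lt_or_ge k i with h2 | h2
          · have h3 : i = k + 1 := by omega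
            subst h3
            have := hfix 1 le_rfl
            rw [hy1, this]
          · exact hst i h0 h2
      rw [h1]
      exact y.f.symm_apply_apply _
  · rintro ⟨⟨L, P, Q, hP, hQ, hPQ⟩, hfix⟩
    have hfix' : ∀ i : ℕ, i ≤ k + 1 → g.f (y.f i) = y.f i := by
      intro i hi
      have h1 := hfix i hi
      rw [hconj] at h1
      have h2 := congrArg y.f h1
      rw [show y.f (y.f⁻¹ (g.f (y.f i))) = g.f (y.f i) from y.f.apply_symm_apply _] at h2
      exact h2
    refine ⟨⟨?_, fun i hi => ?_⟩, fun i _ hi2 => hfix' i (by omega)⟩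
    · obtain ⟨L', P', p', hP', hp', e1⟩ := hcm (k + 1) L N P p hP hp
      obtain ⟨L'', c, c', hc, hc', e2⟩ := hcm (k + 1) L' N (Q * P') p (hmul _ _ _ _ _ hQ hP') hp
      refine ⟨L'', q * p' * c, q * c', hmul _ _ _ _ _ (hmul _ _ _ _ _ hq hp') hc,
        hmul _ _ _ _ _ hq hc', ?_⟩
      have e3 : y⁻¹ * g * y * (P * P') = Q * P' := by
        rw [← mul_assoc, hPQ]
      have e4 : g * y * (p * p') = y * (Q * P') := by
        rw [← e3, ← e1]; group
      calc g * (q * p' * c) = g * y * (p * p') * c := by rw [← hpq]; group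
        _ = y * (Q * P' * c) := by rw [e4]; group
        _ = y * (p * c') := by rw [e2]
        _ = q * c' := by rw [← hpq]; group
    · interval_cases i
      · have := hfix' 0 (Nat.zero_le _)
        push_cast at this ⊢
        rwa [hy0] at this
      · have := hfix' (k + 1) le_rfl
        rw [hy1] at this
        exact this

end Pool.Agent.Helper72.OL
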