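import Pool.Agent.Helper40.OL.Spec

set_option autoImplicit false

namespace Pool.Agent.Helper72.OL

open Pool.Agent.Helper40.OL

lemma tg_strictMono (i : ℕ) : StrictMono (tg i) := by
  intro x y hxy
  unfold tg
  split_ifs <;> linarith

lemma tg_le {i : ℕ} {x : ℝ} (h : x ≤ i) : tg i x = x := by
  unfold tg; rw [if_pos h]

lemma tg_ge {i : ℕ} {x : ℝ} (h : (i : ℝ) + 2 ≤ x) : tg i x = x - 1 := by
  unfold tg
  split_ifs <;> linarith

lemma theta_cons_f (r : ℕ) (R : List ℕ) (x : ℝ) : (theta (r :: R)).f x = tg (r - 1) ((theta R).f x) := rfl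

lemma theta_strictMono (R : List ℕ) : StrictMono (theta R).f := by
  induction R with
  | nil => exact strictMono_id
  | cons r R ih =>
    intro x y hxy
    rw [theta_cons_f, theta_cons_f]
    exact tg_strictMono _ (ih hxy)

/-- `theta R` is the identity on the left of its first element -/
lemma theta_left (R : List ℕ) (c : ℕ) (h : ∀ r ∈ R, c + 1 ≤ r) (x : ℝ) (hx : x ≤ c) :
    (theta R).f x = x := by
  induction R with
  | nil => rfl
  | cons r R ih =>
    rw [theta_cons_f, ih (fun r' h' => h r' (List.mem_cons_of_mem _ h'))]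
    apply tg_le
    have h1 := h r List.mem_cons_self
    have h2 : (c : ℝ) ≤ ((r - 1 : ℕ) : ℝ) := by
      have : c ≤ r - 1 := by omega
      exact_mod_cast this
    linarith

/-- the length bound -/
lemma len_bound (N : ℕ) (R : List ℕ) : ∀ (c : ℕ), R.Pairwise (fun a b => a + 2 ≤ b) →
    (∀ r ∈ R, c + 1 ≤ r ∧ r < N) → R ≠ [] → c + 2 * R.length ≤ N := by
  induction R with
  | nil => intro c _ _ h; exact absurd rfl h
  | cons r R ih =>
    intro c hp hr _
    rw [List.pairwise_cons] at hp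
    have h1 := hr r List.mem_cons_self
    by_cases hR : R = []
    · subst hR
      simp
      omega
    · have h2 := ih (r + 1) hp.2 (fun r' h' => by
        have h3 := hp.1 r' h'
        have h4 := hr r' (List.mem_cons_of_mem _ h')
        omega) hR
      simp only [List.length_cons]
      omega

lemma tail_bound (N r : ℕ) (R : List ℕ) (hp : (r :: R).Pairwise (fun a b => a + 2 ≤ b))
    (hr : ∀ x ∈ r :: R, 1 ≤ x ∧ x < N) : r + 2 * R.length + 1 ≤ N := by
  rw [List.pairwise_cons] at hp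
  by_cases hR : R = []
  · subst hR
    have := hr r List.mem_cons_self
    simp
    omega
  · have h2 := len_bound N R (r + 1) hp.2 (fun r' h' => by
      have h3 := hp.1 r' h'
      have h4 := hr r' (List.mem_cons_of_mem _ h')
      omega) hR
    omega

theorem theta_fst (N : ℕ) (R : List ℕ) : R.Pairwise (fun a b => a + 2 ≤ b) →
    (∀ r ∈ R, 1 ≤ r ∧ r < N) →
    R.length ≤ N ∧ Fo (N - R.length) N (theta R) ∧
    (∀ r ∈ R, ∀ k : ℕ, (theta R).f r ≠ k) ∧
    (∀ l : ℕ, l ≤ N → l ∉ R → ∃ k : ℕ, k ≤ N - R.length ∧ (theta R).f l = k) := by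
  induction R with
  | nil =>
    intro _ _
    refine ⟨Nat.zero_le _, Fo.base (K N).one_mem, fun r hr => by simp at hr, fun l hl _ =>
      ⟨l, by simpa using hl, rfl⟩⟩
  | cons r R ih =>
    intro hp hr
    have hb := tail_bound N r R hp hr
    have hr1 : 1 ≤ r := (hr r List.mem_cons_self).1
    rw [List.pairwise_cons] at hp
    obtain ⟨h1, h2, h3, h4⟩ := ih hp.2 (fun x hx => hr x (List.mem_cons_of_mem _ hx))
    have hlen : (r :: R).length = R.length + 1 := rfl
    have hcast : ((r - 1 : ℕ) : ℝ) = (r : ℝ) - 1 := by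
      rw [Nat.cast_sub hr1]; simp
    have hleft : ∀ x : ℝ, x ≤ r + 1 → (theta R).f x = x := fun x hx =>
      theta_left R (r + 1) (fun r' h' => by have := hp.1 r' h'; omega) x (by push_cast; linarith)
    have hright : ∀ x : ℝ, (r : ℝ) + 1 < x → (r : ℝ) + 1 < (theta R).f x := fun x hx => by
      have h5 := theta_strictMono R hx
      rwa [hleft _ le_rfl] at h5
    rw [hlen]
    refine ⟨by omega, ?_, ?_, ?_⟩
    · refine Fo.step (by omega) ?_
      have e1 : N - (R.length + 1) + 1 = N - R.length := by omega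
      rw [e1]
      exact h2
    · intro x hx k
      rw [theta_cons_f]
      rcases List.mem_cons.1 hx with rfl | hx
      · rw [hleft _ (by linarith)]
        intro hk
        unfold tg at hk
        rw [hcast] at hk
        have c1 : ¬ ((x : ℝ) ≤ x - 1) := by linarith
        have c2 : (x : ℝ) ≤ x - 1 + 2 := by linarith
        rw [if_neg c1, if_pos c2] at hk
        have h6 : (2 * (x : ℤ) - 1 : ℤ) = 2 * k := by
          have : (2 * (x : ℝ) - 1) = 2 * k := by linarith
          exact_mod_cast this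
        omega
      · have h5 := hp.1 x hx
        have h6 : (r : ℝ) + 1 < (theta R).f x := hright x (by
          have : (r : ℝ) + 2 ≤ x := by exact_mod_cast h5
          linarith)
        rw [tg_ge (by rw [hcast]; linarith)]
        intro hk
        exact h3 x hx (k + 1) (by push_cast; linarith)
    · intro l hl hlR
      rw [theta_cons_f]
      have hl1 : l ≠ r := fun e => hlR (by rw [e]; exact List.mem_cons_self)
      have hl2 : l ∉ R := fun e => hlR (List.mem_cons_of_mem _ e)
      rcases Nat.lt_or_ge l r with h | h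
      · have h5 : (l : ℝ) ≤ r - 1 := by
          have : l + 1 ≤ r := h
          have : (l : ℝ) + 1 ≤ r := by exact_mod_cast this
          linarith
        rw [hleft l (by linarith)]
        refine ⟨l, by omega, ?_⟩
        apply tg_le
        rw [hcast]; exact h5
      · have h' : r + 1 ≤ l := by omega
        obtain ⟨k, hk1, hk2⟩ := h4 l hl hl2
        have h5 : (r : ℝ) + 1 ≤ (theta R).f l := by
          have h6 : (r : ℝ) + 1 ≤ l := by exact_mod_cast h'
          have h7 := (theta_strictMono R).monotone h6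
          rwa [hleft _ le_rfl] at h7
        rw [hk2] at h5 ⊢
        have h8 : r + 1 ≤ k := by exact_mod_cast h5
        refine ⟨k - 1, by omega, ?_⟩
        rw [tg_ge (by rw [hcast]; linarith), Nat.cast_sub (by omega)]
        simp

/-- elements with trivial first components and labels at integers in `[a, b]` -/
def Lab (a b : ℕ) (g : E) : Prop := g.f = 1 ∧ (∀ s, g.d s = 0) ∧
  ∀ s t, g.m s t ≠ 0 → (∃ k : ℕ, a ≤ k ∧ k ≤ b ∧ s = k) ∧ (∃ k : ℕ, a ≤ k ∧ k ≤ b ∧ t = k)

lemma conj_f (a : ℕ) (g : E) (hf : g.f = 1) : (tau a * g * (tau a)⁻¹).f = 1 := by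
  simp [hf]

lemma conj_d (a : ℕ) (g : E) (hf : g.f = 1) (hd : ∀ s, g.d s = 0) (s : ℝ) :
    (tau a * g * (tau a)⁻¹).d s = 0 := by
  simp [hf, hd]

lemma conj_m (a : ℕ) (g : E) (hf : g.f = 1) (hd : ∀ s, g.d s = 0) (s t : ℝ) :
    (tau a * g * (tau a)⁻¹).m s t = g.m (sg a s) (sg a t) := by
  have hm : ∀ s t, (tau a).m s t = 0 := fun _ _ => rfl
  have hff : (tau a).f = tauP a := rfl
  simp only [E.mul_m, E.mul_f, E.mul_d, E.inv_m, E.inv_d, hf, hd, hm, hff, mul_one, add_zero, neg_zero,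
    zero_add, mul_zero, tauP_inv_apply, tauP_apply, tg_sg]
  ring

theorem theta_snd_aux (hSWAP : S_SWAP) (N r : ℕ) (R₂ : List ℕ) : ∀ (R₁ : List ℕ) (c : ℕ),
    (R₁ ++ r :: R₂).Pairwise (fun a b => a + 2 ≤ b) →
    (∀ x ∈ R₁ ++ r :: R₂, c + 1 ≤ x ∧ x < N) →
    Lab c (N - (R₁ ++ r :: R₂).length + 1)
      ((tau (r - 1 - R₁.length))⁻¹ * theta (R₁ ++ r :: R₂) * (theta (R₁ ++ R₂))⁻¹) := by
  intro R₁
  induction R₁ with
  | nil =>
    intro c _ _
    have e : (tau (r - 1 - ([] : List ℕ).length))⁻¹ * theta ([] ++ r :: R₂) * (theta ([] ++ R₂))⁻¹ = 1 := by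
      show (tau (r - 1))⁻¹ * (tau (r - 1) * theta R₂) * (theta R₂)⁻¹ = 1
      group
    rw [e]
    exact ⟨rfl, fun _ => rfl, fun s t h => absurd rfl h⟩
  | cons b R₁ ih =>
    intro c hp hx
    have hb := hx b (by simp)
    have hp' := hp
    rw [List.cons_append, List.pairwise_cons] at hp'
    have hrb : b + 2 * R₁.length + 2 ≤ r := by
      have h1 := len_bound r (R₁) (b + 1)
      by_cases hR : R₁ = []
      · subst hR
        have := hp'.1 r (by simp)
        simp
        omega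
      · have h2 : (R₁ ++ r :: R₂).Pairwise (fun a b => a + 2 ≤ b) := hp'.2
        rw [List.pairwise_append] at h2
        have h3 := len_bound (r - 1) R₁ (b + 1) h2.1 (fun x h => by
          have h4 := hp'.1 x (by simp [h])
          have h5 := h2.2.2 x h r List.mem_cons_self
          omega) hR
        omega
    have hrN : r + 2 * R₂.length + 1 ≤ N := by
      have h2 : (b :: R₁ ++ r :: R₂).Pairwise (fun a b => a + 2 ≤ b) := hp
      rw [List.pairwise_append] at h2
      exact tail_bound N r R₂ h2.2.1 (fun x h => by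
        have := hx x (by simp at h ⊢; tauto)
        omega)
    obtain ⟨h1, h2, h3⟩ := ih (b + 1) hp'.2 (fun x h => by
      have h4 := hp'.1 x h
      have h5 := hx x (by simp at h ⊢; tauto)
      omega)
    set a := r - 1 - R₁.length with ha
    have ha' : r - 1 - (b :: R₁).length = a - 1 := by simp [ha]; omega
    have haa : a - 1 + 1 = a := by omega
    have hlen : N - (b :: R₁ ++ r :: R₂).length + 1 + 1 = N - (R₁ ++ r :: R₂).length + 1 := by
      simp; omega
    set M := N - (R₁ ++ r :: R₂).length + 1 with hM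
    have hM' : N - (b :: R₁ ++ r :: R₂).length + 1 = M - 1 := by omega
    have hMa : a + 2 ≤ M := by
      simp only [hM, ha, List.length_append, List.length_cons]
      omega
    set u' := (tau a)⁻¹ * theta (R₁ ++ r :: R₂) * (theta (R₁ ++ R₂))⁻¹ with hu'
    obtain ⟨s1, s2, s3⟩ := hSWAP.2.1 (b - 1) (a - 1) (by omega)
    rw [haa] at s1 s2 s3
    set k := (tau (a - 1) * tau (b - 1))⁻¹ * (tau (b - 1) * tau a) with hk
    have hu : (tau (r - 1 - (b :: R₁).length))⁻¹ * theta (b :: R₁ ++ r :: R₂) * (theta (b :: R₁ ++ R₂))⁻¹ =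
        tau (b - 1) * (k * u') * (tau (b - 1))⁻¹ := by
      rw [ha']
      show (tau (a - 1))⁻¹ * (tau (b - 1) * theta (R₁ ++ r :: R₂)) * (tau (b - 1) * theta (R₁ ++ R₂))⁻¹ = _
      rw [hk, hu']
      group
    have hkf : (k * u').f = 1 := by simp [s1, h1]
    have hkd : ∀ s, (k * u').d s = 0 := fun s => by simp [s1, s2, h2]
    have hkm : ∀ s t, (k * u').m s t = k.m s t + u'.m s t := fun s t => by
      simp [s1, s2, h2]
    have hb1 : 1 ≤ b := by omega
    have hcast : ((b - 1 : ℕ) : ℝ) = (b : ℝ) - 1 := by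
      rw [Nat.cast_sub hb1]; simp
    have ha1 : ((a - 1 : ℕ) : ℝ) = (a : ℝ) - 1 := by
      rw [Nat.cast_sub (by omega)]; simp
    have hsg : ∀ (x : ℕ) (s : ℝ), b + 1 ≤ x → sg (b - 1) s = x → s = ((x - 1 : ℕ) : ℝ) := by
      intro x s hx' hs
      rw [Nat.cast_sub (by omega)]
      have hxb : (b : ℝ) + 1 ≤ x := by exact_mod_cast hx'
      have := tg_sg (b - 1) s
      rw [hs, tg_ge (by rw [hcast]; linarith)] at this
      rw [← this]; simp
    have hsg' : ∀ (s : ℝ), sg (b - 1) s = ((b - 1 : ℕ) : ℝ) → s = ((b - 1 : ℕ) : ℝ) := by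
      intro s hs
      have := tg_sg (b - 1) s
      rw [hs, tg_le le_rfl] at this
      exact this.symm
    have hlab : ∀ s : ℝ, (∃ k : ℕ, b + 1 ≤ k ∧ k ≤ M ∧ sg (b - 1) s = k) ∨
        (sg (b - 1) s = ((b - 1 : ℕ) : ℝ) ∨ sg (b - 1) s = ((b - 1 : ℕ) : ℝ) + 2 ∨
          sg (b - 1) s = ((a - 1 : ℕ) : ℝ) + 1 ∨ sg (b - 1) s = ((a - 1 : ℕ) : ℝ) + 3) →
        ∃ k : ℕ, c ≤ k ∧ k ≤ M - 1 ∧ s = k := by
      intro s hs
      rcases hs with ⟨k, k1, k2, k3⟩ | hs | hs | hs | hs
      · exact ⟨k - 1, by omega, by omega, hsg k s k1 k3⟩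
      · exact ⟨b - 1, by omega, by omega, hsg' s hs⟩
      · refine ⟨b + 1 - 1, by omega, by omega, hsg (b + 1) s le_rfl ?_⟩
        rw [hs, hcast]; push_cast; ring
      · refine ⟨a - 1, by omega, by omega, hsg a s (by omega) ?_⟩
        rw [hs, ha1]; ring
      · refine ⟨a + 2 - 1, by omega, by omega, hsg (a + 2) s (by omega) ?_⟩
        rw [hs, ha1]; push_cast; ring
    rw [hu, hM']
    refine ⟨conj_f _ _ hkf, conj_d _ _ hkf hkd, fun s t hst => ?_⟩
    rw [conj_m _ _ hkf hkd, hkm] at hst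
    by_cases hz : k.m (sg (b - 1) s) (sg (b - 1) t) = 0
    · rw [hz, zero_add] at hst
      obtain ⟨x1, x2⟩ := h3 _ _ hst
      exact ⟨hlab s (Or.inl x1), hlab t (Or.inl x2)⟩
    · obtain ⟨x1, x2⟩ := s3 _ _ hz
      exact ⟨hlab s (Or.inr x1), hlab t (Or.inr x2)⟩

theorem theta_thm (hSWAP : S_SWAP) : S_THETA := by
  refine ⟨fun N R => theta_fst N R, fun N r R₁ R₂ hp hx => ?_⟩
  obtain ⟨h1, h2, h3⟩ := theta_snd_aux hSWAP N r R₂ R₁ 0 hp (fun x h => by
    have := hx x h
    omega)
  refine ⟨h1, h2, fun s t hst => ?_⟩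
  obtain ⟨⟨k, -, k2, k3⟩, ⟨l, -, l2, l3⟩⟩ := h3 s t hst
  exact ⟨⟨k, k2, k3⟩, ⟨l, l2, l3⟩⟩

end Pool.Agent.Helper72.OL
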